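import Mathlib
import Pool.Agent.Q219.NS.Main
import Pool.Agent.Q219.NS.Gen
import Pool.Agent.Q219.GP.Main

/-!
# The generic point of `A × U`, `A` outside of a thin subset of a Newton stratum

We study the question Q1 in the bidegrees `(i, j) = (2 c, c)`, `c > 0`. As the groups
`CH ^ c (Spec K, 0)` of fields are zero, it says for a variety `X` that `H ^ (2 c) (F_0 X̄, ℚ_ℓ(c))`
contains no invariant classes.

Fix a prime `p`, a nonempty finite set `κ`, dimensions `g i ≥ 1` and, for each `i`, a symmetric
Newton polygon with slopes `s i j` and `1 - s i j` (`IsPolygon (s i)`) whose smallest slope is at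
most `σ < 1 / 2`; so it is any Newton polygon that is not the supersingular one.
`NewtonStratum g s p a` is the set of families of isogeny classes of abelian varieties `A_i` of
dimension `g i` over the field with `p ^ a` elements having these Newton polygons (by the theorem of
Honda and Tate). Fix also a number field `E` in the complex numbers and a number `r` which is
smaller than all the dimensions `g i`.

**Theorem.** The number of elements of `NewtonStratum g s p a` tends to infinity with `a`, and for
all members, except for at most

  `C * a * p ^ (- a (1 - 2 σ) / 6) * |NewtonStratum g s p a|`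

(`C` depends on `p`, `g`, `s`, `σ`, `E`, `r` only), the following is true (`SameInvariants`).

Let `A` be an abelian variety over a finite extension of the field with `p ^ a` elements, isogenous
to a product of powers of the `A_i`, and let `U` be any smooth variety over the same field such that
the eigenvalues of Frobenius on the cohomology of `U` and their conjugates have rank at most `r` over
`E` in each degree (up to powers they lie in a group generated by nonzero elements of `E` and `r`
numbers). Then for all `c` the pull-back is a bijection between the invariant classes in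
`H ^ (2 c) (F_0 Ū, ℚ_ℓ(c))` and in `H ^ (2 c) (F_0 (A × U)‾, ℚ_ℓ(c))`. So **Q1 for `U` in the bidegree
`(2 c, c)` is equivalent to Q1 for `A × U` in this bidegree**; in particular all Tate classes of
positive degree on `A` and on `A × U`, `dim U ≤ 1`, and on `A × U`, `dim U ≤ 3`, if the Tate conjecture
for divisors holds for `U`, vanish at the generic point. The Frobenius endomorphism on the
cohomology of `U` need not be semisimple, and nothing is assumed on the algebraicity of Tate
classes of `U`.

**The spaces** (structure `GenericPoint`, spaces tensored with `ℂ`). The invariant classes at the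
generic point have weight zero, and come from classes on `A × U` (`weights`): for an open subset
`X'` of a smooth variety `X` the kernel of `H ^ (2 c) (X'‾) → H ^ (2 c + 1)` of `X̄` with supports in
the complement contains the part of weight `2 c`, by Deligne. The pull-back is injective
(restriction to `y × U`, `y` a suitable closed point of `A`); the classes of divisors of `A` vanish at
the generic point (`divisor`; by the theorem of Tate they are the classes in `⋀ ^ 2 V` which are
fixed by a power of Frobenius, up to the twist).

**The proof.** An invariant class at the generic point is the restriction of a generalized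
eigenvector for the eigenvalue `Q ^ c` on the cohomology of `A × U`, as the latter is of finite
dimension. Its component in `⋀ ^ n H ^ 1 (A) ⊗ H ^ (2 c - n) (U)` is a combination of products of
eigenvectors `v_1, ..., v_n` with eigenvalues `μ_k` and of generalized eigenvectors on `U` with an
eigenvalue `ρ` such that `μ_1 ... μ_n ρ = Q ^ c`. For the members of the stratum outside of the exceptional
set this implies that `n` is even, and that the `μ_k` can be arranged in pairs with product `Q`.
-/

set_option autoImplicit false

namespace Pool.Agent.Results.MP_677d84_ag.AbelianFactorsInStrata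

open Polynomial Pool.Agent.W518.DN Pool.Agent.TH44.SS Pool.Agent.Q219.NS Pool.Agent.Q219.GP

theorem stratum_eq {κ : Type} (g : κ → ℕ) (s : ∀ i, Fin (g i) → ℚ) (p : ℕ) [Fact p.Prime]
    (a : ℕ) : NewtonStratum g s p a = Stratum g s p a := rfl

/-- **The generic point of `A × U` for all `A` outside of a thin subset of a Newton stratum.** -/
theorem result {κ : Type} [Fintype κ] [Nonempty κ] (p : ℕ) [Fact p.Prime]
    -- dimensions and Newton polygons
    (g : κ → ℕ) (s : ∀ i, Fin (g i) → ℚ) (hs : ∀ i, IsPolygon (s i))
    -- the smallest slopes
    (σ : ℚ) (hσ : ∀ i (h : 0 < g i), s i ⟨0, h⟩ ≤ σ) (hσ2 : σ < 1 / 2)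
    -- the number field and the rank
    (E : IntermediateField ℚ ℂ) [FiniteDimensional ℚ E] (r : ℕ) (hr : ∀ i, r < g i) :
    (∀ N : ℕ, ∃ a₀ : ℕ, ∀ a, a₀ ≤ a →
      (NewtonStratum g s p a).Finite ∧ N ≤ (NewtonStratum g s p a).ncard) ∧
    ∃ C : ℝ, 0 < C ∧ ∀ a : ℕ, 0 < a →
      ({P ∈ NewtonStratum g s p a | ¬ SameInvariants E (p ^ a) r P}.ncard : ℝ) ≤
        C * (a * (p : ℝ) ^ (-((a : ℝ) * (1 - 2 * σ) / 6))) *
          ((NewtonStratum g s p a).ncard : ℝ) := by
  classical
  have hg : ∀ i, 1 ≤ g i := fun i => (Nat.zero_le r).trans_lt (hr i)
  have hs' : ∀ i, IsNewton (s i) := fun i => ⟨(hs i).mono, (hs i).nonneg, (hs i).le_half,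
    (hs i).integral⟩
  simp only [stratum_eq]
  refine ⟨fun N => ?_, ?_⟩
  · obtain ⟨a₀, h⟩ := density g s p hg hs' (fun i => ⟨⟨0, hg i⟩, (hσ i (hg i)).trans_lt hσ2⟩)
      N 1 one_pos
    exact ⟨a₀, fun a ha => ⟨(h a ha).1, (h a ha).2.1⟩⟩
  · obtain ⟨C, hC, h⟩ := count_strata g s p (Pool.Agent.W484.TB.splitPrimes E)
      (Pool.Agent.W484.TB.dense_splitPrimes E) hg hs' σ hσ hσ2
    refine ⟨C, hC, fun a ha => h a ha (SameInvariants E (p ^ a) r) fun f hm hd hf => ?_⟩
    have hq : p ^ a ≠ 0 := pow_ne_zero _ (Fact.out : p.Prime).ne_zero
    exact sameInvariants_good E hq r f hm (fun i => by rw [hd i]; exact hr i) hf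

end Pool.Agent.Results.MP_677d84_ag.AbelianFactorsInStrata
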