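import Pool.Agent.Q59.TC.Fro

/-!
# The generic point of `Z × C ^ n`, `Z` a given variety, `C` a random cover

Let `Z` be a smooth projective variety over a finite field `𝔽` of characteristic `p`, and let `G` be a
finite group of order prime to `p`. Let `𝒮 → B` be a family of smooth projective curves of genus `g ≥ 0`
with disjoint sections `a_1, ..., a_r`, over a smooth geometrically connected scheme `B` of finite type
over `𝔽` which dominates the moduli space of `r`-pointed curves, and `𝒞 → 𝒮` a family of Galois covers
with the group `G`, ramified only over the `a_j`, with ramification indices which divide `N`. For a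
closed point `b` of `B` let `C` be the fibre of `𝒞` at `b`, a curve over the residue field of `b`, which
has `q` elements. The results hold for all closed points `b` outside a set of density zero.

We study the question Q1 in the bidegrees `(i, j) = (2 c, c)`, `c > 0`. As the groups `CH ^ c (Spec K, 0)` of
fields are zero, it says that `H ^ (2 c) (F_0 X̄, ℚ_ℓ(c))` contains no invariant classes: every Tate class
of the variety vanishes at the generic point, for every model.

**The spaces.** Let `V c` be the space `H ^ (2 c) (F_0 X̄, ℚ_ℓ(c))` for `X = Z × C ^ n`, and `V0 c` the subspace of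
the classes which come from `H ^ (2 c) (X̄, ℚ_ℓ(c))`, the quotient of this space by the classes of
coniveau one (tensored with `ℂ`, by an isomorphism of `ℂ` with an algebraic closure of `ℚ_ℓ`). The weights
of `V c / V0 c` are positive (Deligne), so the invariant classes are contained in `V0 c`. The
correspondences of `X` act on `V0 c`, as they respect the coniveau filtration. Let `VZ c` be the space
`H ^ (2 c) (F_0 Z̄, ℚ_ℓ(c))`, and `pull` the pull-back from it to `V c`; it is injective (restriction to
`Z × y`, `y` a suitable closed point of `C ^ n`).

**Parts.** The notation for local systems and the facts about the Frobenius are those of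
`MP_0f183b_ag.RandomCoversTimesVarieties`: the letters are eigenvectors of the Frobenius, and form bases of
the spaces `V_i` (the first cohomology of the local systems), `π` are the eigenvalues of the letters, `Λ` is
the set of the eigenvalues of the Frobenius on the cohomology of `Z`; for all `b` outside a set of
density zero the Frobenius torus contains a maximal torus of the automorphism group `D` of the spaces
`V_i` (Serre; Chi; monodromy: Boggi, Looijenga, Landesman, Litt, Sawin), which acts trivially on the
cohomology of `Z`, and this gives the structure `Frobenius`. The classes of points of the factors `C`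
have coniveau one; so `V0 c` is the sum of `V0 c ∩ pull (VZ c)` and of the images `part j (V0 c)` of the
spaces `H (Z) ⊗ M_w`, where `w` runs through words of positive length (indices `j : J`) and `M_w` is the
line spanned by the product of the letters. A power of the product of the `F - α π_w q ^ (- c)` annihilates
the part of `w`. If `w` consists of pairs (a letter and its dual) and full blocks (all letters of a space
`V_(μ j)` once), and the exponents `exAll μ` of the blocks give the empty character or the character of
an algebraic line on a Fermat variety of degree `N`, then the line `M_w` is spanned by an algebraic class of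
positive codimension on `C ^ n` (Schoen; the pairings and the classes of the blocks are algebraic; the number
of the letters is even and positive), and so the part is zero in `V0 c`, whatever the Tate classes of
`Z` are. The family of the characters of algebraic lines on Fermat varieties in characteristic `p` is
`Admissible` (Shioda, Katsura, Aoki; Tate's theorem for Fermat surfaces; specialization of algebraic
cycles). These facts form the structure `GenericPoint`.

**The theorem.** The pull-back is an isomorphism between the spaces of the invariant classes of `VZ c`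
and of `V c` in each of the following cases.

(1) `2 c` is smaller than the dimensions of all spaces `V_i`.

(2) The covers are unramified; `c` is arbitrary.

(3) The cohomology of `Z` contains no nontrivial Weil numbers of Fermat type (`IntegralSlopes`), and
`N ≤ 54`, or `N` is a `GoodDegree`, or a power of `p` is minus one modulo all odd primes dividing `N`; for
instance if `Z` is a point; `c` is arbitrary.

So **Q1 for `Z × C ^ n` in the bidegree `(2 c, c)` is equivalent to Q1 for `Z` in this bidegree.** It
follows then for all `X` with a dominant rational map from `Z × C ^ n` to `X`. As `H ^ (2 c) (F_0 Z̄) = 0` for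
`2 c > dim Z`, it holds unconditionally for all `c > 0` if `dim Z ≤ 1`, and if `dim Z ≤ 3` and the Tate
conjecture for divisors (Q1 for `c = 1`) holds for `Z`.
-/

namespace Pool.Agent.Results.MP_677d84_ag.GenericPointOfProducts

open Pool.Agent.Q59.GC Pool.Agent.Q59.TC Pool.Agent.Q59.TC.Sys Pool.Agent.Q59.TC.Res
  Pool.Agent.Q59.TC.Fro

/-- The spaces `V c`, `V0 c` (embedded by `incl`) and `VZ c` in codimension `c`, with the Frobenius
operators (on the twisted spaces); `V0 c` contains the invariants of `V c`; the operators `part j` of the
words `word j` of positive length: a vector of `V0 c` minus the sum of its parts comes from `VZ c`. A power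
of the product of the `q ^ c F - α π_w` annihilates the part of `w`. The part is zero if `w` consists of
pairs and full blocks and the exponents of the blocks give the empty character or the character of
an algebraic line. -/
structure GenericPoint {N : ℕ} {I : Type} {S : LocalSystems N I} {p : ℕ} (Φ : Frobenius S p)
    (A : ∀ M : ℕ, Multiset (ZMod M) → Prop) (c : ℕ) where
  V : Type
  [addV : AddCommGroup V]
  [modV : Module ℂ V]
  V0 : Type
  [addV0 : AddCommGroup V0]
  [modV0 : Module ℂ V0]
  VZ : Type
  [addVZ : AddCommGroup VZ]
  [modVZ : Module ℂ VZ]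
  frob : V →ₗ[ℂ] V
  frob0 : V0 →ₗ[ℂ] V0
  frobZ : VZ →ₗ[ℂ] VZ
  incl : V0 →ₗ[ℂ] V
  pull : VZ →ₗ[ℂ] V
  incl_frob : ∀ x, incl (frob0 x) = frob (incl x)
  incl_injective : Function.Injective incl
  pull_frob : ∀ x, pull (frobZ x) = frob (pull x)
  pull_injective : Function.Injective pull
  weights : ∀ x, frob x = x → ∃ y, incl y = x
  J : Type
  [finJ : Fintype J]
  len : J → ℕ
  word : ∀ j, Fin (len j + 1) → Letter S.labels
  part : J → V0 →ₗ[ℂ] V0
  part_frob : ∀ j x, part j (frob0 x) = frob0 (part j x)
  rest : ∀ x, ∃ z, pull z = incl (x - ∑ j, part j x)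
  nilpotent : ∀ j, ∃ m : ℕ, ∀ x, Polynomial.aeval (((Φ.q : ℂ) ^ c) • frob0)
    ((∏ α ∈ Φ.Λ, (Polynomial.X - Polynomial.C ((α : ℂ) * ∏ k, (Φ.π (word j k) : ℂ)))) ^ m)
      (part j x) = 0
  algebraic : ∀ (j : J) (l r : ℕ) (μ : Fin l → I)
    (e : (Σ i : Fin l, Fin (S.labels.dim (μ i))) ⊕ (Fin r × Fin 2) ≃ Fin (len j + 1)),
    IsDecomposed (word j) μ e → (exAll S.labels μ = 0 ∨ A N (exAll S.labels μ)) →
      ∀ x, part j x = 0

attribute [instance] GenericPoint.addV GenericPoint.modV GenericPoint.addV0 GenericPoint.modV0
  GenericPoint.addVZ GenericPoint.modVZ GenericPoint.finJ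

section

variable {N : ℕ} {I : Type} {S : LocalSystems N I} {p : ℕ} {Φ : Frobenius S p}
  {A : ∀ M : ℕ, Multiset (ZMod M) → Prop} {c : ℕ}

/-- Pull-back is a bijection between the invariant classes at the generic points of `Z` and of
`Z × C ^ n`. -/
def GenericPoint.Same (T : GenericPoint Φ A c) : Prop :=
  Set.BijOn T.pull {z | T.frobZ z = z} {x | T.frob x = x}

/-- without a resonance the part of an invariant vector is zero -/
lemma part_zero (T : GenericPoint Φ A c) (j : T.J)
    (h : ¬ ∃ α ∈ Φ.Λ, α * ∏ k, Φ.π (T.word j k) = (Φ.q : Ints) ^ c) {x : T.V0}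
    (hx : T.frob0 x = x) : T.part j x = 0 := by
  push Not at h
  obtain ⟨m, hm⟩ := T.nilpotent j
  have h1 : (((Φ.q : ℂ) ^ c) • T.frob0) (T.part j x) = ((Φ.q : ℂ) ^ c) • T.part j x := by
    rw [LinearMap.smul_apply, ← T.part_frob, hx]
  have h2 := hm x
  rw [aeval_eigen _ _ _ h1] at h2
  refine (smul_eq_zero.mp h2).resolve_left ?_
  rw [Polynomial.eval_pow, Polynomial.eval_prod]
  refine pow_ne_zero _ (Finset.prod_ne_zero_iff.mpr fun α hα => ?_)
  rw [Polynomial.eval_sub, Polynomial.eval_X, Polynomial.eval_C, sub_ne_zero]
  intro h3
  refine h α hα (Subtype.ext ?_)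
  push_cast
  exact h3.symm

/-- vanishing of the parts of the resonances -/
lemma same_of_parts (T : GenericPoint Φ A c)
    (h : ∀ j, (∃ α ∈ Φ.Λ, α * ∏ k, Φ.π (T.word j k) = (Φ.q : Ints) ^ c) →
      ∀ x, T.part j x = 0) : T.Same := by
  refine ⟨fun z hz => ?_, T.pull_injective.injOn, fun x hx => ?_⟩
  · have h1 : T.frobZ z = z := hz
    have h2 : T.frob (T.pull z) = T.pull z := by rw [← T.pull_frob, h1]
    exact h2
  · have hx' : T.frob x = x := hx
    obtain ⟨y, rfl⟩ := T.weights x hx'
    have hy : T.frob0 y = y := T.incl_injective (by rw [T.incl_frob, hx'])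
    obtain ⟨z, hz⟩ := T.rest y
    have h0 : ∑ j, T.part j y = 0 := Finset.sum_eq_zero fun j _ => by
      by_cases hj : ∃ α ∈ Φ.Λ, α * ∏ k, Φ.π (T.word j k) = (Φ.q : Ints) ^ c
      · exact h j hj y
      · exact part_zero T j hj hy
    rw [h0, sub_zero] at hz
    refine ⟨z, ?_, hz⟩
    have h1 : T.frobZ z = z := T.pull_injective (by rw [T.pull_frob, hz, ← T.incl_frob, hy])
    exact h1

end

/-- **Invariant classes at the generic point of the products of a given variety with powers of random
covers of pointed curves over finite fields.** -/
theorem result (p : ℕ) (hp : p.Prime) (N : ℕ) [NeZero N] (hpN : p.Coprime N) (I : Type) [Fintype I]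
    (S : LocalSystems N I) (Φ : Frobenius S p) (A : ∀ M : ℕ, Multiset (ZMod M) → Prop)
    (hA : Admissible p A) (c : ℕ) (T : GenericPoint Φ A c) :
    ((∀ i, 2 * c < S.labels.dim i) → T.Same) ∧
    ((∀ i, S.ex i = 0) → T.Same) ∧
    (IntegralSlopes Φ → KnownDegree p N → T.Same) := by
  refine ⟨fun hd => same_of_parts T fun j h => ?_, fun hex => same_of_parts T fun j h => ?_,
    fun hInt hN => same_of_parts T fun j h => ?_⟩
  · obtain ⟨hs, l, r, μ, e, hdec, -⟩ := Φ.resonance hp hpN c _ (T.word j) h
    have hl : l = 0 := by
      by_contra hl
      have h1 := Fintype.card_congr e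
      simp only [Fintype.card_sum, Fintype.card_sigma, Fintype.card_fin, Fintype.card_prod] at h1
      have h2 : S.labels.dim (μ ⟨0, Nat.pos_of_ne_zero hl⟩) ≤ ∑ i, S.labels.dim (μ i) :=
        Finset.single_le_sum (f := fun i => S.labels.dim (μ i)) (fun i _ => Nat.zero_le _)
          (Finset.mem_univ _)
      have h3 := hd (μ ⟨0, Nat.pos_of_ne_zero hl⟩)
      omega
    subst hl
    refine T.algebraic j 0 r μ e hdec (Or.inl ?_)
    unfold exAll
    simp
  · obtain ⟨-, l, r, μ, e, hdec, -⟩ := Φ.resonance hp hpN c _ (T.word j) h
    exact T.algebraic j l r μ e hdec (Or.inl (Finset.sum_eq_zero fun i _ => hex (μ i)))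
  · obtain ⟨-, l, r, μ, e, hdec, hl⟩ := Φ.resonance hp hpN c _ (T.word j) h
    exact T.algebraic j l r μ e hdec (Or.inr (hl hInt hN A hA))

end Pool.Agent.Results.MP_677d84_ag.GenericPointOfProducts
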