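import Pool.Agent.Q45.GM.Fod
import Pool.Agent.Q45.GM.Cyc

/-!
# One point count and the Tate conjecture over all finite extensions

Let `k` be a finite field with `q` elements, `q` odd, `n` an odd prime number, `g` a monic polynomial of
degree `n` and `b` a polynomial of degree `d = n ^ a`, `a > 0`, over `k`, such that `b(-g(x))` is
irreducible over `k`. Suppose that `2` is a primitive root modulo `n ^ (a + 1)`. The surface
`X : y ^ 2 = b(w ^ 2 - g(x))` is fibred over the curve `C : s ^ 2 = b(t)` by `t = w ^ 2 - g(x)`, and the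
generic fibre is the hyperelliptic curve `w ^ 2 = g(x) + t` over the function field `K` of `C`. Let
`J` be the Jacobian of this curve, `k'` an algebraic closure of `k`, `F = k' K`, `B` the integral closure
of `k'[t]` in `F`, and `M` the `ℤ_2`-module of the classes of the continuous cocycles of `Gal(Sep F / F)`
with values in the Tate module `T_2 J` which are locally trivial at all the maximal ideals of `B`.

The module `M` is free of rank `0` or `d (n - 1)`. Let `φ` be the Frobenius on `M`. Either no power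
`φ ^ j`, `j > 0`, fixes an element different from zero of `M`: there are no Tate classes on `X` over any
finite extension of `k` in the part `M` of the cohomology; or the characteristic polynomial of `φ` is the
sum of the `X ^ (j d)`, or of the `(-X) ^ (j d)`, `0 ≤ j < n`, so that the zeta function of `X` is known.
If the trace of `φ` is not zero the first case holds. In terms of points the trace of `φ` is `N / q - N'`,
where `N` is the number of the points over `k` of the affine surface `y ^ 2 = b(w ^ 2 - g(x))` and `N'` is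
the number of the points over `k` of the affine curve `s ^ 2 = b(t)`.
-/

set_option autoImplicit false
set_option linter.all false

open Polynomial IsDedekindDomain
open scoped Classical

namespace Pool.Agent.Results.MP_677d84_ag.OnePointCount

open Pool.Agent.Y160.SL
open Pool.Agent.TH115.GD (rs ak Sep Comp)

/-- `K` is the function field of the curve `s ^ 2 = b(t)` over `k`. -/
structure IsFunctionField (k K : Type) [Field k] [Field K] [Algebra k[X] K] (b : k[X]) (s : K) :
    Prop where
  inj : Function.Injective (algebraMap k[X] K)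
  sq : s ^ 2 = algebraMap k[X] K b
  gen : Subfield.closure (Set.range (algebraMap k[X] K) ∪ {s}) = ⊤

/-- The field `F` is the extension `k' K` of `K` by the constants `k'`. -/
structure IsConstantExtension (k k' K F : Type) [Field k] [Field k'] [Algebra k k'] [Field K]
    [Algebra k[X] K] [Field F] [Algebra k'[X] F] [Algebra K F] : Prop where
  inj : Function.Injective (algebraMap k'[X] F)
  comp : ∀ p : k[X], algebraMap K F (algebraMap k[X] K p) =
    algebraMap k'[X] F (p.map (algebraMap k k'))
  gen : IntermediateField.adjoin K (Set.range ((algebraMap k'[X] F).comp C)) = ⊤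

/-- The polynomial `g(x) + t` over the field `K` which contains `k[t]`. -/
noncomputable def fPoly {k : Type} [Field k] (g : k[X]) (K : Type) [Field K] [Algebra k[X] K] : K[X] :=
  g.map ((algebraMap k[X] K).comp C) + C (algebraMap k[X] K X)

/-- The conditions on the polynomials `b` and `g` over `k`: the degree of `g` is an odd prime number `n`,
the degree of `b` is `n ^ a`, `a > 0`, `b(-g(x))` is irreducible, and `2` has order `n ^ a (n - 1)` modulo
`n ^ (a + 1)`. -/
structure IsPair {k : Type} [Field k] (b g : k[X]) (a : ℕ) : Prop where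
  two : (2 : k) ≠ 0
  monic : g.Monic
  prime : g.natDegree.Prime
  odd : Odd g.natDegree
  pos : 0 < a
  degree : b.natDegree = g.natDegree ^ a
  irreducible : Irreducible (b.comp (-g))
  root : orderOf (2 : ZMod (g.natDegree ^ (a + 1))) = g.natDegree ^ a * (g.natDegree - 1)

section lin

variable {M : Type} [AddCommGroup M] [Module ℤ_[2] M] [Module.Finite ℤ_[2] M]
  [Module.Free ℤ_[2] M]

/-- The powers `φ ^ j`, `j > 0`, fix only the element `0`. -/
def NoTateClasses (φ : M →ₗ[ℤ_[2]] M) : Prop :=
  ∀ (m : M) (j : ℕ), 0 < j → (φ ^ j) m = m → m = 0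

/-- The characteristic polynomial of `φ` is the sum of the `(e X) ^ (j d)`, `0 ≤ j < n`, for `e = 1` or
`e = -1`. -/
def HasCyclotomicPolynomial (φ : M →ₗ[ℤ_[2]] M) (n d : ℕ) : Prop :=
  ∃ e : ℤ_[2], (e = 1 ∨ e = -1) ∧ φ.charpoly = ∑ j ∈ Finset.range n, (C e * X) ^ (j * d)

end lin

section gen

variable {K F Ω : Type} [Field K] [Field F] [Field Ω] [Algebra K F] [Algebra F Ω] [Algebra K Ω]
  [IsScalarTower K F Ω] (f : K[X])

/-- The sequences of cochains of `Gal(Ω / F)` with values in `J(Ω)`. -/
abbrev Cochain (F Ω : Type) [Field F] [Field Ω] [Algebra K Ω] [Algebra F Ω] (f : K[X]) : Type :=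
  ℕ → (Ω ≃ₐ[F] Ω) → Jac 2 f Ω

/-- `c` is the coboundary of an element `R` of the Tate module `T_2 J`. -/
def IsTateCoboundary (c : Cochain F Ω f) : Prop :=
  ∃ R : ℕ → Jac 2 f Ω, IsTM 2 2 f R ∧ ∀ n, IsCobOf 2 f (c n) (R n)

/-- The map `κ` identifies with `M` the group of the classes of the cocycles with the property `P`:
it is additive and surjective on these cocycles, and `κ c = 0` if and only if `c` is the coboundary of
an element of the Tate module. -/
structure IsClassMap (P : Cochain F Ω f → Prop) (M : Type) [AddCommGroup M]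
    (κ : Cochain F Ω f → M) : Prop where
  surj : ∀ m, ∃ c, P c ∧ κ c = m
  add : ∀ c d, P c → P d → κ (c + d) = κ c + κ d
  zero : ∀ c, P c → (κ c = 0 ↔ IsTateCoboundary f c)

/-- `d` is the transform of the cochain `c` by the automorphism `T` of `Ω` over `K`:
`d (σ) = T (c (σ'))`, where `σ' = T⁻¹ σ T`. -/
def IsTransform (T : Ω ≃ₐ[K] Ω) (c d : Cochain F Ω f) : Prop :=
  ∀ n (σ σ' : Ω ≃ₐ[F] Ω), (∀ x, T (σ' x) = σ (T x)) → d n σ = jm 2 f (ak T) (c n σ')

/-- The endomorphism `φ` of `M` is induced by the automorphism `T` of `Ω` over `K`. -/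
def IsInduced (P : Cochain F Ω f → Prop) {M : Type} (κ : Cochain F Ω f → M) (T : Ω ≃ₐ[K] Ω)
    (φ : M → M) : Prop :=
  ∀ c d, P c → IsTransform f T c d → P d ∧ κ d = φ (κ c)

end gen

section sel

variable {K F : Type} [Field K] [Field F] [Algebra K F] (B : Type) [CommRing B] [IsDedekindDomain B]
  [Algebra B F] [IsFractionRing B F] (f : K[X])

/-- The restriction of the cochain `c` to the completion of `F` at every maximal ideal of the Dedekind
domain `B` with field of fractions `F` is a coboundary. -/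
def IsSelmer (c : (Sep F ≃ₐ[F] Sep F) → Jac 2 f (Sep F)) : Prop :=
  ∀ v : HeightOneSpectrum B, LocTriv 2 f (Comp B F v) (Sep (Comp B F v)) c

/-- `c` is a continuous cocycle of `Gal(Sep F / F)` with values in the Tate module `T_2 J` which is
locally trivial at all the maximal ideals of the Dedekind domain `B` with field of fractions `F`; its
component with values in `J[2 ^ n]` is `c n`. -/
def IsSelmerCocycle (c : Cochain F (Sep F) f) : Prop :=
  IsTC 2 2 f c ∧ ∀ n, IsSelmer B f (c n)

/-- The automorphism `T` of `Sep F` over `K` acts on the module of the classes as `φ`. -/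
def ActsAs {M : Type} [AddCommGroup M] [Module ℤ_[2] M] (κ : Cochain F (Sep F) f → M)
    (T : Sep F ≃ₐ[K] Sep F) (φ : M →ₗ[ℤ_[2]] M) : Prop :=
  IsInduced f (IsSelmerCocycle B f) κ T φ

/-- The automorphism `T` of `Sep F` over `K` acts on the constants in `k'` as the Frobenius of the
finite field `k`. -/
def IsFrobenius {k : Type} (k' : Type) [Field k] [Field k'] [Algebra k'[X] F]
    (T : Sep F ≃ₐ[K] Sep F) : Prop :=
  ∀ x : k', T (algebraMap F (Sep F) (algebraMap k'[X] F (C x))) =
    algebraMap F (Sep F) (algebraMap k'[X] F (C (x ^ Nat.card k)))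

end sel

/-- The theorem. -/
def Main : Prop :=
  ∀ (k k' K F B : Type) [Field k] [Finite k] [Field k'] [Algebra k k'] [IsSepClosure k k'] [Field K]
    [Algebra k[X] K] [Field F] [Algebra k'[X] F] [Algebra K F] [CommRing B] [IsDedekindDomain B]
    [Algebra k'[X] B] [Algebra B F] [IsScalarTower k'[X] B F] [IsFractionRing B F]
    [IsIntegralClosure B k'[X] F] (b g : k[X]) (s : K) (a : ℕ), IsPair b g a →
    IsFunctionField k K b s → IsConstantExtension k k' K F →
      ∃ (M : Type) (_ : AddCommGroup M) (_ : Module ℤ_[2] M) (_ : Module.Finite ℤ_[2] M)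
        (_ : Module.Free ℤ_[2] M) (κ : Cochain F (Sep F) (fPoly g K) → M),
        IsClassMap (fPoly g K) (IsSelmerCocycle B (fPoly g K)) M κ ∧
        (Module.finrank ℤ_[2] M = 0 ∨
          Module.finrank ℤ_[2] M = b.natDegree * (g.natDegree - 1)) ∧
        (∀ T : Sep F ≃ₐ[K] Sep F, ∃ φ : M →ₗ[ℤ_[2]] M, ActsAs B (fPoly g K) κ T φ) ∧
        ∀ (T : Sep F ≃ₐ[K] Sep F) (φ : M →ₗ[ℤ_[2]] M), IsFrobenius (k := k) k' T →
          ActsAs B (fPoly g K) κ T φ →
            (NoTateClasses φ ∨ HasCyclotomicPolynomial φ g.natDegree b.natDegree) ∧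
            (LinearMap.trace ℤ_[2] M φ ≠ 0 → NoTateClasses φ)

open Pool.Agent.Q45.GM (IsHE fin_of SelT clsOf clsOf_surj clsOf_add clsOf_zero exists_lift
  stp_of WBal RT fb Gal rho rho_cls rho_mul isInvt card_eq gs)

section conv

variable {K F : Type} [Field K] [Field F] [Algebra K F] {B : Type} [CommRing B] [IsDedekindDomain B]
  [Algebra B F] [IsFractionRing B F] {f : K[X]}

theorem toTC {c : Cochain F (Sep F) f} (h : IsTC 2 2 f c) : Pool.Agent.Y160.SQ.IsTC 2 2 f c :=
  ⟨fun n => ⟨(h.coc n).lc, (h.coc n).mul⟩, h.zero, h.step⟩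

theorem ofTC {c : Cochain F (Sep F) f} (h : Pool.Agent.Y160.SQ.IsTC 2 2 f c) : IsTC 2 2 f c :=
  ⟨fun n => ⟨(h.coc n).lc, (h.coc n).mul⟩, h.zero, h.step⟩

/-- The classes of the cocycles. -/
theorem classMap : IsClassMap f (IsSelmerCocycle B f) (SelT (F := F) 2 B f 2) (clsOf B f) where
  surj m := by
    obtain ⟨c, ⟨h1, h2⟩, h3⟩ := clsOf_surj B f m
    exact ⟨c, ⟨ofTC h1, h2⟩, h3⟩
  add c d hc hd := clsOf_add B f (toTC hc.1) hc.2 (toTC hd.1) hd.2
  zero c hc := by
    refine (clsOf_zero B f (toTC hc.1) hc.2).trans ⟨?_, ?_⟩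
    · rintro ⟨R, hR, h⟩
      exact ⟨R, ⟨hR.zero, hR.step⟩, h⟩
    · rintro ⟨R, hR, h⟩
      exact ⟨R, ⟨hR.zero, hR.step⟩, h⟩

end conv


theorem main : Main := by
  intro k k' K F B _ _ _ _ hk' _ _ _ _ _ _ _ _ _ _ _ _ b g s a hp hK hF
  haveI : IsSepClosed k' := hk'.sep_closed
  haveI : Algebra.IsSeparable k k' := hk'.separable
  have hn2 : g.natDegree ≠ 2 := by
    intro h
    have h1 := hp.odd
    rw [h] at h1
    exact (Nat.not_odd_iff_even.2 even_two) h1
  have hb0 : 0 < b.natDegree := by
    rw [hp.degree]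
    exact pow_pos hp.prime.pos _
  have hsep : (b.comp (-g)).Separable := PerfectField.separable_of_irreducible hp.irreducible
  have hK' : IsHE k K b s := ⟨hK.inj, hK.sq, hK.gen⟩
  have hF' : Pool.Agent.Q45.TW.IsGeom k k' K F := ⟨hF.inj, hF.comp, hF.gen⟩
  have h12 := fin_of (B := B) hp.two hp.monic hp.odd hb0 hsep hK' hF'
  haveI h1 : Module.Finite ℤ_[2] (SelT (F := F) 2 B (fPoly g K) 2) := h12.1
  haveI h2 : Module.Free ℤ_[2] (SelT (F := F) 2 B (fPoly g K) 2) := h12.2
  have hS : Pool.Agent.Q45.GM.Stp (b.map (algebraMap k k')) (g.map (algebraMap k k'))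
    (algebraMap K F s) (fPoly g K) := stp_of hp.two hp.monic hp.odd hb0 hsep hK' hF'
  obtain ⟨α, ha⟩ := Pool.Agent.Y160.SQ.exists_rt (Ω := Sep F) hS.good
  have hind : ∀ (T : Sep F ≃ₐ[K] Sep F) (φ : SelT (F := F) 2 B (fPoly g K) 2 →ₗ[ℤ_[2]]
      SelT (F := F) 2 B (fPoly g K) 2), ActsAs B (fPoly g K) (clsOf B (fPoly g K)) T φ ↔
        φ = rho B hF' (fPoly g K) T := by
    intro T φ
    constructor
    · intro h
      refine LinearMap.ext fun m => ?_
      obtain ⟨c, ⟨hc, hcs⟩, rfl⟩ := clsOf_surj B (fPoly g K) m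
      have hcj := Pool.Agent.Q45.GM.lf_T B hF' (fPoly g K) T
      have hd : IsTransform (fPoly g K) T c (fun n σ => jm 2 (fPoly g K) (ak T)
          (c n ((Pool.Agent.Q45.GM.lf B hF' (fPoly g K) T).conj σ))) := by
        intro n σ σ' hσ
        have h5 : (Pool.Agent.Q45.GM.lf B hF' (fPoly g K) T).conj σ = σ' := by
          refine AlgEquiv.ext fun x => T.injective ?_
          rw [hσ]
          have h6 := (Pool.Agent.Q45.GM.lf B hF' (fPoly g K) T).T_conj σ x
          rwa [hcj] at h6
        have h8 : ∀ ρ : Sep F ≃ₐ[F] Sep F, ρ = σ' →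
            jm 2 (fPoly g K) (ak T) (c n ρ) = jm 2 (fPoly g K) (ak T) (c n σ') := by
          rintro ρ rfl
          rfl
        exact h8 _ h5
      have h7 := (h c _ ⟨ofTC hc, hcs⟩ hd).2
      rw [← h7]
      exact (rho_cls B hF' (fPoly g K) T hc hcs hd).2
    · rintro rfl c d hc hd
      obtain ⟨⟨h4, h5⟩, h6⟩ := rho_cls B hF' (fPoly g K) T (toTC hc.1) hc.2 hd
      exact ⟨⟨ofTC h4, h5⟩, h6⟩
  -- the Frobenius
  obtain ⟨ρ, -, hρ1, hρ2⟩ := Pool.Agent.Q45.GM.JFROB.main k k' (b.comp (-g)) hp.irreducible
  have hN : 0 < (b.comp (-g)).natDegree := hp.irreducible.natDegree_pos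
  haveI : NeZero (b.comp (-g)).natDegree := ⟨hN.ne'⟩
  have hNd : (b.comp (-g)).natDegree = g.natDegree ^ (a + 1) := by
    rw [natDegree_comp, natDegree_neg, hp.degree, ← pow_succ]
  have hcore : ∀ (T : Sep F ≃ₐ[K] Sep F), IsFrobenius (k := k) k' T →
      (Module.finrank ℤ_[2] (SelT (F := F) 2 B (fPoly g K) 2) = 0 ∨
        Module.finrank ℤ_[2] (SelT (F := F) 2 B (fPoly g K) 2) =
          g.natDegree ^ a * (g.natDegree - 1)) ∧
      ((∀ (m : SelT (F := F) 2 B (fPoly g K) 2) (j : ℕ), 0 < j →
        (rho B hF' (fPoly g K) T ^ j) m = m → m = 0) ∨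
        (rho B hF' (fPoly g K) T).charpoly = gs ℤ_[2] g.natDegree (g.natDegree ^ a) ∨
        (rho B hF' (fPoly g K) T).charpoly = (gs ℤ_[2] g.natDegree (g.natDegree ^ a)).comp (-X)) := by
    intro T hT
    refine Pool.Agent.Q45.GM.core hp.prime hn2 hp.pos hp.root ?_ ?_
    · -- the characteristic polynomial modulo 2
      obtain ⟨τ, hτ⟩ := Pool.Agent.Q45.GM.exists_tau hF' T
      have hτF : ∀ x : k', τ x = x ^ Nat.card k := by
        intro x
        apply (Pool.Agent.Q45.GM.cs k' F).injective
        rw [← hτ]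
        exact hT x
      have hit : ∀ i : ℕ, ρ (i : ZMod (b.comp (-g)).natDegree) = τ^[i] (ρ 0) := by
        intro i
        induction i with
        | zero => rw [Nat.cast_zero]; rfl
        | succ i ih => rw [Function.iterate_succ_apply', ← ih, hτF, Nat.cast_succ, hρ1]
      have hcyc : ∀ r : k', aeval r (b.comp (-g)) = 0 → ∃ i : ℕ, r = τ^[i] (ρ 0) := by
        intro r hr
        obtain ⟨i, rfl⟩ := (hρ2 r).1 hr
        refine ⟨i.val, ?_⟩
        rw [← hit, ZMod.natCast_zmod_val]
      have hmap : ∀ p : k[X], (p.map (algebraMap k k')).map ((τ : k' ≃+* k') : k' →+* k') =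
          p.map (algebraMap k k') := by
        intro p
        rw [Polynomial.map_map]
        congr 1
        exact RingHom.ext fun x => τ.commutes x
      have hcomp : (b.map (algebraMap k k')).comp (-(g.map (algebraMap k k'))) =
          (b.comp (-g)).map (algebraMap k k') := by
        rw [map_comp, Polynomial.map_neg]
      have hroot : ∀ r : k', r ∈ RT (b.map (algebraMap k k')) (g.map (algebraMap k k')) ↔
          aeval r (b.comp (-g)) = 0 := by
        intro r
        unfold RT
        rw [hcomp, Multiset.mem_toFinset, mem_roots (hsep.map).ne_zero, IsRoot.def,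
          eval_map_algebraMap]
      have hL : ∀ x : k', (Pool.Agent.Q45.GM.lf B hF' (fPoly g K) T).s (algebraMap k'[X] F (C x)) =
          algebraMap k'[X] F (C (τ x)) := by
        intro x
        apply (algebraMap F (Sep F)).injective
        have h3 := (Pool.Agent.Q45.GM.lf B hF' (fPoly g K) T).comm (algebraMap k'[X] F (C x))
        rw [Pool.Agent.Q45.GM.lf_T] at h3
        rw [← h3]
        exact hτ x
      have key := hS.charpoly ha (Pool.Agent.Q45.GM.lf B hF' (fPoly g K) T)
        (Pool.Agent.Q45.GM.lf_tw B hF' (fPoly g K) T) (τ : k' ≃+* k') hL (hmap g) (hmap b) (r₀ := ρ 0)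
        ((hroot _).2 ((hρ2 _).2 ⟨0, rfl⟩)) (fun r hr => hcyc r ((hroot r).1 hr))
      rw [natDegree_map_eq_of_injective (algebraMap k k').injective,
        natDegree_map_eq_of_injective (algebraMap k k').injective, hp.degree] at key
      exact key
    · -- the fixed vectors
      intro m j hj hm
      rw [← hNd]
      obtain ⟨M, hM⟩ : ∃ M, (b.comp (-g)).natDegree = M + 1 := ⟨(b.comp (-g)).natDegree - 1, by omega⟩
      have hpow : ∀ (i : ℕ) (x : k'), (T ^ i) (Pool.Agent.Q45.GM.cs k' F x) =
          Pool.Agent.Q45.GM.cs k' F (x ^ (Nat.card k ^ i)) := by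
        intro i
        induction i with
        | zero => intro x; rw [pow_zero, pow_zero, pow_one]; rfl
        | succ i ih =>
          intro x
          rw [pow_succ', AlgEquiv.mul_apply, ih]
          have h1 := hT (x ^ (Nat.card k ^ i))
          rw [← pow_mul, ← pow_succ] at h1
          exact h1
      have hρN : ∀ (l : ℕ) (i : ZMod (b.comp (-g)).natDegree), ρ (i + l) = ρ i ^ (Nat.card k ^ l) := by
        intro l
        induction l with
        | zero => intro i; rw [Nat.cast_zero, add_zero, pow_zero, pow_one]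
        | succ l ih => intro i; rw [Nat.cast_succ, ← add_assoc, hρ1, ih, ← pow_mul, ← pow_succ]
      have hroots : ∀ r : k', aeval r (b.comp (-g)) = 0 → r ^ (Nat.card k ^ (M + 1)) = r := by
        intro r hr
        obtain ⟨i, rfl⟩ := (hρ2 r).1 hr
        rw [← hρN, ← hM, ZMod.natCast_self, add_zero]
      have hfix : ∀ r : k', aeval r (b.comp (-g)) = 0 →
          (T ^ (M + 1)) (Pool.Agent.Q45.GM.cs k' F r) = Pool.Agent.Q45.GM.cs k' F r := by
        intro r hr
        rw [hpow, hroots r hr]
      have hr1 := Pool.Agent.Q45.GM.rho_pow B hF' (fPoly g K) T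
      obtain ⟨i, rfl⟩ : ∃ i, j = i + 1 := ⟨j - 1, by omega⟩
      -- the power of `T ^ (M + 1)` fixes `m`
      have hmm : (rho B hF' (fPoly g K) (T ^ (M + 1)) ^ (i + 1)) m = m := by
        rw [← Pool.Agent.Q45.GM.rho_pow]
        have h1 : (T ^ (M + 1)) ^ (i + 1) = (T ^ (i + 1)) ^ (M + 1) := by
          rw [← pow_mul, ← pow_mul, mul_comm]
        rw [h1, Pool.Agent.Q45.GM.rho_pow]
        have h3 : rho B hF' (fPoly g K) (T ^ (i + 1)) m = m := by rw [hr1]; exact hm
        have h4 : ∀ l : ℕ, (rho B hF' (fPoly g K) (T ^ (i + 1)) ^ l) m = m := by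
          intro l
          induction l with
          | zero => rfl
          | succ l ih =>
            have h5 : (rho B hF' (fPoly g K) (T ^ (i + 1)) ^ (l + 1)) m =
                rho B hF' (fPoly g K) (T ^ (i + 1)) ((rho B hF' (fPoly g K) (T ^ (i + 1)) ^ l) m) := by
              rw [pow_succ' (rho B hF' (fPoly g K) (T ^ (i + 1))) l]
              rfl
            rw [h5, ih, h3]
        exact h4 _
      have h := Pool.Agent.Q45.GM.rho_sq B hF' hsep hS ha (T ^ (M + 1)) hfix m (i + 1) hj hmm
      rw [← Pool.Agent.Q45.GM.rho_mul, ← pow_add] at h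
      have h1 : M + 1 + (M + 1) = (2 * M + 1) + 1 := by ring
      rw [h1, hr1] at h
      have h3 : 2 * (b.comp (-g)).natDegree = 2 * M + 1 + 1 := by rw [hM]; ring
      rw [h3]
      exact h
  -- the rank does not depend on the Frobenius
  have hrank : Module.finrank ℤ_[2] (SelT (F := F) 2 B (fPoly g K) 2) = 0 ∨
      Module.finrank ℤ_[2] (SelT (F := F) 2 B (fPoly g K) 2) =
        b.natDegree * (g.natDegree - 1) := by
    rw [hp.degree]
    letI : Fintype k := Fintype.ofFinite k
    obtain ⟨T, hT⟩ := Pool.Agent.Q45.GM.exists_T (F := F) hp.two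
      (Pool.Agent.Q45.GM.bsep_of hp.odd.pos hsep) hb0 hK' hF'
      (FiniteField.frobeniusAlgEquivOfAlgebraic k k')
    refine (hcore T fun x => ?_).1
    have h3 : (FiniteField.frobeniusAlgEquivOfAlgebraic k k') x = x ^ Nat.card k := by
      rw [Nat.card_eq_fintype_card]
      rfl
    rw [← h3]
    exact hT x
  refine ⟨SelT (F := F) 2 B (fPoly g K) 2, inferInstance, inferInstance, h1, h2,
    clsOf B (fPoly g K), classMap, hrank, fun T => ⟨rho B hF' (fPoly g K) T, (hind T _).2 rfl⟩, ?_⟩
  intro T φ hT hφ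
  rw [(hind T φ).1 hφ]
  obtain ⟨-, h3⟩ := hcore T hT
  constructor
  · rcases h3 with h4 | h4 | h4
    · exact Or.inl h4
    · refine Or.inr ⟨1, Or.inl rfl, ?_⟩
      rw [h4, gs, hp.degree, C_1, one_mul]
    · refine Or.inr ⟨-1, Or.inr rfl, ?_⟩
      rw [h4, gs, hp.degree, Polynomial.sum_comp]
      refine Finset.sum_congr rfl fun j _ => ?_
      rw [pow_comp, X_comp, C_neg, C_1, neg_one_mul]
  · intro htr
    rcases h3 with h4 | h4
    · exact h4
    · exact absurd (Pool.Agent.Q45.GM.trace_ne hp.prime hn2 hp.pos h4) htr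

/-- The theorem. -/
theorem result : Main := main

end Pool.Agent.Results.MP_677d84_ag.OnePointCount
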