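import Mathlib
import Pool.Agent.Q29.TE.Law3
import Pool.Agent.Q29.BX.Rows
import Pool.Agent.Q29.DP.RowsCT
import Pool.Agent.Q29.FN.Main

/-!
# The generic points of the products of arbitrary varieties over finite fields with abelian varieties of
almost all slope types of typical CM fields

Let `K i` (`i` in a finite set) be CM fields of degree `2 g i` which are pairwise independent: for
`i ≠ k` and all complex embeddings `φ` of `K i` and `ψ` of `K k` some automorphism of `ℂ` is the
identity on `φ (K i)` and the complex conjugation on `ψ (K k)` (this is no condition if there is
only one field).

We fix an isomorphism `ν` of the algebraic closure of `ℚ_p` with `ℂ`; it defines a `p`-adic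
valuation of `ℂ`, with the value one at `p`. Let `M i` be a function with integral values on the
complex embeddings of `K i`, invariant under complex conjugation (the weights). A CM type `Φ i` of
`K i` (a choice of one element out of each complex conjugate pair of embeddings), `M i` and a real
number `κ ≠ 0` prescribe the slopes `(a + κ M) / 2` (at the embeddings in `Φ i`) and `(a - κ M) / 2`
(outside of `Φ i`) of a Weil number for `p ^ a` in `K i`. If `p` splits completely in `K i` then, by
Honda and Tate, all rational slopes between `0` and `a` that are symmetric in this way occur for
abelian varieties over finite fields. The case `M = 1`, `κ = a` is the ordinary case.

**The question.** We study the question Q1 in the bidegrees `(i, j) = (2 c, c)`, `c > 0`. As the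
groups `CH ^ c (Spec K, 0)` of fields are zero, it says that `H ^ (2 c) (F_0 X̄, ℚ_ℓ(c))` contains
no invariant classes: every Tate class of the variety vanishes at the generic point, for every
model. Let `π i` be Weil numbers for `q = p ^ a` that generate the fields `K i` and have the slope
types `Φ i`, `M i` (`HasType`), and let `f i` be monic polynomials whose complex roots are
conjugates of `π i` (`IsPolyOf`), for instance the characteristic polynomials of Frobenius of the
abelian varieties in the isogeny classes of the `π i` over the field with `q` elements. Let `A` be
an abelian variety over the field with `Q = q ^ s` elements which is isogenous to a product of
powers of abelian varieties coming from the field with `q` elements, with the characteristic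
polynomials `f i`. Let `Z` be **any** smooth projective variety over the same field such that
* the eigenvalues `α ∈ Λ` of Frobenius on the cohomology of `Z` are unrelated to the fields `K i`
  (`Unrelated`, `UnrelatedTo`): a function `n` on the complex embeddings of `K i` with `n (conj φ) =
  - n φ` which is invariant under all automorphisms of `ℂ` that fix a power of `α` is zero. This is
  so if for each embedding `ψ` of `K i` some automorphism which fixes a power of `α` is the complex
  conjugation on `ψ (K i)`: for instance, if a power of `α` lies in a field linearly disjoint from
  the normal closures of the `K i`, or in a totally real field. It is also so if the degree of `α`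
  is less than twice the dimension of each nonzero space of functions `n` stable under all
  automorphisms of `ℂ`.

The property `Q` of the slope types is (`GenericTimes`): **pull-back is an isomorphism between the
spaces of the invariant classes of `H ^ (2 c) (F_0 Z̄, ℚ_ℓ(c))` and of `H ^ (2 c) (F_0 X̄, ℚ_ℓ(c))`,
`X = A × Z`, for all these `A` and `Z` and all `c`. So Q1 for `A × Z` in the bidegree `(2 c, c)` is
equivalent to Q1 for `Z` in this bidegree.** It follows then for all `X` with a dominant rational
map from `A × Z` to `X`. As `H ^ (2 c) (F_0 Z̄) = 0` for `2 c > dim Z`, it holds unconditionally for
all `c > 0` if `dim Z ≤ 1`, and if `dim Z ≤ 3` and the Tate conjecture for divisors (Q1 for `c = 1`)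
holds for `Z`.

**The formal statement** (`GenericPoint`). Let `V` be the space `H ^ (2 c) (F_0 X̄, ℚ_ℓ(c))` for `X
= A × Z`, and `V0` the subspace of the classes which come from `H ^ (2 c) (X̄, ℚ_ℓ(c))`, the
quotient of this space by the classes of coniveau one (tensored with `ℂ`, by an isomorphism of `ℂ`
with an algebraic closure of `ℚ_ℓ`). The following facts are hypotheses. The weights of `V / V0` are
positive (Deligne), so the invariant classes are contained in `V0` (`weights`). The correspondences
of `X` act on `V0`, as they respect the coniveau filtration. Let `VZ` be the space `H ^ (2 c) (F_0
Z̄, ℚ_ℓ(c))`, and `pull` the pull-back from it to `V`; it is injective (restriction to `y × Z`, `y`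
a suitable closed point of `A`). The cohomology of `A` is the exterior algebra of `H ^ 1 (A)`, a sum
of lines `M_w` spanned by products of eigenvectors of the Frobenius; the letters of the word
(multiset) `w` are their eigenvalues, and the projectors to `H (Z) ⊗ M_w` are given by
correspondences (Tate). The word of length zero gives the classes which come from `Z`. So `V0` is
the sum of `V0 ∩ pull (VZ)` and of the images of operators `part j` for the words `word j` of
positive length (`rest`). A power of the product of the `Q ^ c F - α π_w`, `π_w` the product of the
letters, annihilates the part of `w` (`nilpotent`). If `w` consists of pairs of letters with the
product `Q` (`IsPaired`) then `M_w` is spanned by a product of combinations of divisor classes on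
`A` (Tate) of positive codimension, so this part vanishes at the generic point, whatever the classes
on `Z` are (`algebraic`).

This setting is the one of `MP_677d84_ag.GenericPointOfProducts` (helper59), which is about random
covers of curves instead of abelian varieties with a given slope type.


**The theorem.** Let `E` be a CM field of degree `2 g`, and let all values of the weights `M` divide
the number `n`.

* (`MostTypes`) For all `n` and `ε > 0` there is a number `u` such that the property `Q` is false
  for at most **a proportion of `max (ε, 0.68 q / g)` of the `2 ^ g` types** of `E`, if `g ≥ u`, the
  normal subfields of `E` are small (`SmallNormal`: `g` is odd, or all smooth parts of `g` are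
  small, that is, a divisor of `g` with all prime factors at most `y` is at most `√(g y ^ 3) / (1 +
  log g) ^ 3`, for all `y ≥ 2`, for instance if `g` is large and has a prime factor larger than `√g
  (1 + log g) ^ 3`, but also if `g = 4 p ^ 2` with a large prime number `p`; or the subfields of `E`
  that are normal over `ℚ` are contained in a subfield of degree at most `√g / (1 + log g) ^ 2`),
  and `q ≤ g` is at least the part of `g` composed of the primes 2 and 3 (or at least twice the
  number of the CM subfields of `E` of degree 4 or 6; `SmallPart`). In particular the property is
  true for almost all types of **all CM fields of degree `2 g` with `g` odd and prime to `3`**,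
  without any condition on the Galois group or on the subfields; for at least 86 percent of all
  types if `g` is odd and not a power of 3; and for at least 32 percent of all types of all fields
  with small normal subfields (take `q = g`).
* (`OddDegrees`) For **all CM fields of degree `2 g` with `g` odd**, `g ≥ u (n)`, without any
  condition on the Galois group or the subfields, it is true for **at least one half of all types**,
  and if all weights are one then for **at least two thirds of all types**.
* (`AllFields`) For **every CM field** `E`, of any degree `2 g`, without any condition on the Galois
  group or the subfields, and every `m`, the property is true for **all but a proportion of `g / (m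
  + 1)` of all slope functions with denominator `m`**: they are `a (1 + D / m) / 2` with one of the
  `(m + 1) ^ g` functions `D` with `D φ̄ = - D φ`, `|D φ| ≤ m` and `D φ` congruent to `m` modulo 2
  (`Box`); the weights are `M = |D|`, and `D ≥ 0` on the type.
* (`AlmostAllTypes`, `AlmostAllDegrees`) Let `q ^ k ≤ g` for all `q` with `q ^ 2 ∣ g`. Then for all
  CM fields of degree `2 g` it is false for at most `2 ^ g * C * n ^ 2 * g ^ (6 / k - 1/4 + ε)`
  types, `C = C (k, ε)`. At most `4 x ^ (1 - 1/k)` of the numbers `g ≤ x` do not have this property
  (`k ≥ 2`).

All this is proved more generally for finitely many pairwise independent fields `K i`; the
proportions of the types with the property are then multiplied (in the third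
and the fourth part the bounds for the exceptions are added).

**What was known.** The starting files prove that almost all types of a CM field have no relations
if it has few CM subfields, and this for all CM fields of degree `2 g` if `g` has a prime factor
larger than `g ^ (1 / 2 + δ)`. For the fields with many CM subfields of the other degrees (examples
are `g = p q` with two nearly equal prime numbers, and `g = p ^ k`) this was open; for the degrees
`2 r ^ k`, `r` prime, a theorem of this team gives the property for at least one half of all types,
by congruences (it is used here for `r = 3`). Some condition is necessary: if `E` is multiquadratic
and `M = 1` then nearly one half of all types is degenerate (`Pool.Agent.Q29.DP.multiquadratic`).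

**The relations with the eigenvalues of `Z`** (starting files). Suppose that the product of `ρ` and
of some eigenvalues `φ (π i)` of `A`, no two of them complex conjugate, is a power of `q`, up to a
root of unity. For an automorphism `σ` of `ℂ` the `p`-adic valuations of the images under `σ` give a
linear relation between the signed weights `± M i (σ φ)` whose right side is a function of the
valuation of `σ ρ`. It does not change if `σ` is multiplied by an automorphism `τ` which fixes a
power of `ρ`. The difference of the two relations is homogeneous; if there are no homogeneous
relations then it is trivial, so that the exponents are invariant under all `τ` which fix a power of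
`ρ`; as they change their sign under complex conjugation they are zero. Hence the word consists of pairs
of letters with the product `Q`.

**The proof** that there are no homogeneous relations between the signed weights `e = ± M` of the
types, `∑ n φ * e (σ φ) = 0` for all automorphisms `σ` of `ℂ`, with `n φ̄ = - n φ`, `n ≠ 0`: it
remains to estimate the number of the degenerate types: those for which `e` is orthogonal to a
minimal Galois-stable space `S` of antisymmetric functions on the set of the complex embeddings of
`E`. Let `G` be the Galois group of the normal closure and `H` the stabilizer of an embedding, `K`
the kernel of the action of `G` on `S` and `F` the field of `H K`; so `S` comes from `F` and is a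
faithful representation of the Galois group `G / K` of the normal closure of `F`. Let `c = e + d -
h` where `d` and `h` are the dimensions of `S` and of the part of `S` fixed by `H`, and `e` is the
dimension of the algebra of the endomorphisms of `S`. The spaces isomorphic to `S` form a component.

(A) The sum of `h d / e` over all components is at most `g`. A component with `c ≥ 3` contributes at
most `2 ^ g C n ^ 4 (h d / (e g)) (log g) ^ 21 / √g`; so these components together contribute
little. For this the size of `F` must be eliminated from the estimate of the starting files; this is
done with their inequality for small denominators and for groups of order `g ^ (log g)`.

(B) The components with `c = 2` and dimension `d ≥ 3`: those with `d ≥ D` contribute at most `2 ^ g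
64 log (4 D) / D` together. If `3 ≤ d < D` then by Minkowski `F` has bounded degree, and each
contributes `2 ^ g o (1 / g)`; this is the new analytic step. Let `p` be a prime number of the size
of a large multiple of `√g`. The spaces isomorphic to `S` have at most `2 ^ e p ^ (h - e)`
reductions `R` modulo `p`, and by Fourier analysis modulo `p` the number of the types orthogonal to
`R` is at most `2 ^ g p ^ (-d)` times the sum over the functions `u` in `R` of a product of cosines,
which is at most a Gaussian function of `u`. A short `u ≠ 0` generates `R` (short integral functions
which are independent over `ℚ` are independent modulo `p`, by Gram determinants); so the sum over
all `R` of the sums over the `u ≠ 0` is at most one Gaussian sum, hence bounded, and altogether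
there are at most `2 ^ g (2 ^ e p ^ (-2) + O (p ^ (-d)))` types.

(C) `c = d = 2`: then `F` has degree 4 or 6, there are at most as many of these components as CM
subfields of degree 4 or 6, and at most half of the part of `g` composed of 2 and 3; each
contributes at most `2 ^ g 1.351 / g`, by the theorem of Erdos on sums of weights with signs,
applied twice. If `g` is a power of 3, and for `OddDegrees`, these components are excluded by a
congruence modulo 3: the lattice of the relations contains a function that is invariant modulo 3
under a Sylow 3-subgroup, which has two orbits on the embeddings.

(D) `c = 1`: then `F` is normal over `ℚ`, `d ^ 2 ≤ [F : ℚ] / 2`, and the component contributes at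
most `2 ^ g C n (log g) ^ (3/2) √(d / g)`. If `g` is odd then `d = 1` (Frobenius and Schur) and
there is at most one. In general the sum of `d ^ 2` over those with `d < y` is at most the largest
divisor of `g` composed of primes `≤ y`; and over all of them at most the degree of a field which
contains all subfields normal over `ℚ`.

(E) For the bounds with a power saving the number of the components with `c ≤ 2` is estimated by the
number of the classes of cyclic subgroups of `G / L`, `L` the intersection of their kernels, using
the theorem of Sylow; here the order of `G / L` is at most `2 g 2 ^ Ω(2 g)` because `H K / K` has
order at most two and is not central. Lemmas of this part were proved by helper24, helper38,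
helper178, helper204, helper227, helper261 and helper275 of this team.

(G) For (`AllFields`) let `φ i` be the embeddings of a type. The functions `D` with relations are
zeros of the polynomial `det (D (σ j φ i))` of degree `g` in the `g` variables `D (φ i)`, for all
automorphisms `σ j` of `ℂ`; if `σ j` maps `φ j` to `φ 1` then it is not zero, since its value for
the function with the values `1` at `φ 1`, `-1` at its conjugate and `0` elsewhere is the
determinant of the unit matrix. Then the lemma of Schwartz and Zippel gives the bound.
-/

set_option autoImplicit false

namespace Pool.Agent.Results.MP_677d84_ag.TypicalFields

open NumberField Module Pool.Agent.H204R3.CM Pool.Agent.H977R3.CM Pool.Agent.Y1.KN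
  Pool.Agent.Y1.CT Pool.Agent.Q29.TE Pool.Agent.Q29.FN

open Pool.Agent.Q29.DP (of_unrelated)

open Pool.Agent.Q29.BX (AllFields allFields)

/-- The property of the slope types `Φ i` with the weights `M i`. -/
def Q : TypeProperty := fun _ _ ν _ _ K _ _ _ M Φ => ForAllTypes ν K M (GenericTimes K) Φ

/-- **The invariant classes in the cohomology of even degree of the generic point of `A × Z` come from
`Z`, for the abelian varieties `A` of almost all slope types of typical CM fields and all unrelated
varieties `Z`.** -/
theorem result : MostTypes Q ∧ OddDegrees Q ∧ AllFields Q ∧ AlmostAllTypes Q ∧
    AlmostAllDegrees := by
  have h : WithoutRelations Q := of_unrelated (P := fun _ K _ => GenericTimes K)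
    fun _ _ _ _ _ _ hQ hR => genericTimes hQ hR
  exact ⟨mostTypes h, oddDegrees h, allFields h, almostAllTypes h, almostAllDegrees⟩

end Pool.Agent.Results.MP_677d84_ag.TypicalFields
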